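import Pool.Agent.H52.S3.LemmaA
import Pool.Agent.H77.SN.Defs

/-!
# Section 3 of `db5e86_proof`: Lemma A at an exact class return
-/

set_option autoImplicit false
set_option linter.unusedSectionVars false

open scoped InnerProductSpace Topology ContDiff
open Set Filter

namespace Pool.Agent.H52.S3

open Pool.Agent.H91.GE hiding G1 G11 Nondeg Br exists_br cF smooth_cF Cfg mem_TSet_of_map
open Pool.Agent.H59.LV Pool.Agent.H59.ND Pool.Agent.H59.Zar Pool.Agent.H77.SN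

variable {E F : Type*} [NormedAddCommGroup E] [InnerProductSpace ℝ E] [FiniteDimensional ℝ E]
  [NormedAddCommGroup F] [InnerProductSpace ℝ F] [FiniteDimensional ℝ F]
  {S : Set E} {A : E × E → E} {K K₂ : NNReal} {Φ : ℝ → E × E → E × E} {n : ℕ}

theorem rInv_RR (h : GFlow F S A K K₂ Φ) (hdim : Module.finrank ℝ E = Module.finrank ℝ F + n) :
    RInv Φ S (RR Φ S) :=
  ⟨(retRel h hdim).sub, (retRel h hdim).inv⟩

/-- **Lemma A** at an exact class return. -/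
theorem lemmaA_cls (h : GFlow F S A K K₂ Φ)
    (hdim : Module.finrank ℝ E = Module.finrank ℝ F + n) {ζ : E × E → E}
    {ν : (E × E) × (E × E) → ℝ} {w : E × E} {L : ℝ} (hc : Cls Φ S ζ ν w L) :
    ∃ c : ℝ, ∀ e'' ∈ ZT S w.1, ∀ e' ∈ ZT S (Φ L w).1, ⟪(Φ L w).2, e'⟫_ℝ = 0 →
      TPr ζ (ν (w, Φ L w)) w.1 (Φ L w).1 e'' e' →
      ∀ ξ ∈ TZ Φ S (w, Φ L w), ∀ (a b : E) (β : ℝ),
        (((ξ.1, a), (-(ν (w, Φ L w) • ξ.2) + β • (Φ L w).2, b)) : (E × E) × (E × E))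
          ∈ ZT (RR Φ S) (w, Φ L w) →
        ⟪a, e''⟫_ℝ - ⟪b, e'⟫_ℝ = c * ⟪ξ.2, e'⟫_ℝ := by
  have hR := rInv_RR h hdim
  have hpR : (w, Φ L w) ∈ RR Φ S := (retRel h hdim).mem_flow hc.mem L
  have hwS : w.1 ∈ S := fst_mem_TSet hc.mem.1
  have hvS : (Φ L w).1 ∈ S := fst_mem_TSet (hR.sub _ hpR).2.1
  obtain ⟨W, hW, hxyW, hζ, -⟩ := hc.gd
  obtain ⟨O, hO, hν⟩ := hc.smooth
  obtain ⟨O', hO'O, hO'o, hpO'⟩ := mem_nhds_iff.1 hO
  obtain ⟨V, hV, hVid⟩ := mem_nhdsWithin_iff_exists_mem_nhds_inter.1 hc.c1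
  obtain ⟨V', hV'V, hV'o, hpV'⟩ := mem_nhds_iff.1 hV
  set U : Set ((E × E) × (E × E)) := bs E ⁻¹' W ∩ (O' ∩ V') with hU
  have hUo : IsOpen U := (hW.preimage (bs E).continuous).inter (hO'o.inter hV'o)
  have hpU : (w, Φ L w) ∈ U := ⟨hxyW, hpO', hpV'⟩
  have hid : IdR (RR Φ S) U ζ A (fun q => -(ν q)) := by
    refine IdR.mk' h hR hUo (fun q hq => ?_) ?_ ?_
    · exact (hζ _ hq.1).contDiffAt (hW.mem_nhds hq.1)
    · exact (hν.mono fun q hq => hO'O hq.2.1).neg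
    · intro q hqR hq
      have h1 := hVid ⟨hV'V hq.2.2, hqR⟩
      simp only [mem_ofPred_eq] at h1
      rw [neg_smul]
      exact h1
  refine ⟨-(gk A (fun q => -(ν q)) (w, Φ L w) / (2 * -(ν (w, Φ L w)))), ?_⟩
  intro e'' he'' e' he' hve htp ξ hξ a b β hab
  refine lemmaA h hR hid hpR hpU (neg_ne_zero.2 hc.ne) (β := β) ((mem_TS h.sub hvS).1 he')
    ((mem_TS h.sub hwS).1 he'') hve ?_ (ξ := ξ.1) (ξ' := ξ.2) hξ ?_
  · intro η η' _ _ h1
    have h2 := htp η η' h1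
    linarith
  · rw [neg_smul]
    exact hab

end Pool.Agent.H52.S3
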