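import Pool.Agent.H59.Zar.Basic
import Pool.Agent.H59.ND.Resid

/-!
# The second fundamental form in ambient terms

For unit vectors `w` tangent to `S` at `x`: the derivative of the acceleration in a vertical tangent
direction is normal, it is twice the normal part of `b` when `(a, b)` is in the Zariski tangent space
of the unit tangent bundle, and Euler's relation holds.
-/

set_option autoImplicit false
set_option linter.unusedSectionVars false

open scoped InnerProductSpace Topology ContDiff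
open Set Filter

namespace Pool.Agent.H52.S3

open Pool.Agent.H91.GE Pool.Agent.H59.LV Pool.Agent.H59.ND Pool.Agent.H59.Zar

variable {E F : Type*} [NormedAddCommGroup E] [InnerProductSpace ℝ E] [FiniteDimensional ℝ E]
  [NormedAddCommGroup F] [InnerProductSpace ℝ F] [FiniteDimensional ℝ F]
  {S : Set E} {A : E × E → E} {K K₂ : NNReal} {Φ : ℝ → E × E → E × E}

/-- The tangent space as a predicate closed under linear operations. -/
theorem TSet_add (hsub : IsSub F S) {x a b : E} (ha : (x, a) ∈ TSet S) (hb : (x, b) ∈ TSet S) :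
    (x, a + b) ∈ TSet S := by
  obtain ⟨U, hU, f, hf⟩ := hsub x (fst_mem_TSet ha)
  rw [mem_TSet_iff hf hU] at ha hb ⊢
  exact ⟨ha.1, by rw [map_add, ha.2, hb.2, add_zero]⟩

theorem TSet_smul (hsub : IsSub F S) {x a : E} (ha : (x, a) ∈ TSet S) (c : ℝ) :
    (x, c • a) ∈ TSet S := by
  obtain ⟨U, hU, f, hf⟩ := hsub x (fst_mem_TSet ha)
  rw [mem_TSet_iff hf hU] at ha ⊢
  exact ⟨ha.1, by rw [map_smul, ha.2, smul_zero]⟩

theorem TSet_sub (hsub : IsSub F S) {x a b : E} (ha : (x, a) ∈ TSet S) (hb : (x, b) ∈ TSet S) :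
    (x, a - b) ∈ TSet S := by
  have h1 := TSet_add hsub ha (TSet_smul hsub hb (-1))
  rwa [neg_one_smul, ← sub_eq_add_neg] at h1

theorem TSet_zero (hsub : IsSub F S) {x : E} (hx : x ∈ S) : (x, (0 : E)) ∈ TSet S := by
  obtain ⟨U, hU, f, hf⟩ := hsub x hx
  rw [mem_TSet_iff hf hU]
  exact ⟨hx, map_zero _⟩

/-- The derivative of the acceleration in a vertical tangent direction. -/
theorem fderiv_A_eq (h : GFlow F S A K K₂ Φ) {x u ξ : E} (hu : (x, u) ∈ TSet S) (hu2 : ‖u‖ < 2)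
    (hξ : (x, ξ) ∈ TSet S) {U : Set E} {f : E → F} (hf : IsLoc S U f) (hx : x ∈ U) :
    fderiv ℝ A (x, u) (0, ξ) = -((2 : ℝ) • Rinv (fderiv ℝ f x) (fderiv ℝ (fderiv ℝ f) x u ξ)) := by
  have hA : DifferentiableAt ℝ A (x, u) := h.field.smooth.contDiffAt.differentiableAt (by simp)
  have hl : HasDerivAt (fun s : ℝ => ((x, u + s • ξ) : E × E)) ((0, ξ) : E × E) 0 := by
    have h1 : HasDerivAt (fun s : ℝ => u + s • ξ) ξ 0 := by
      simpa using ((hasDerivAt_id (0 : ℝ)).smul_const ξ).const_add u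
    exact (hasDerivAt_const (0 : ℝ) x).prodMk h1
  have h1 : HasDerivAt (fun s : ℝ => A (x, u + s • ξ)) (fderiv ℝ A (x, u) (0, ξ)) 0 := by
    have h2 : HasFDerivAt A (fderiv ℝ A (x, u)) (x, u + (0 : ℝ) • ξ) := by
      rw [zero_smul, add_zero]; exact hA.hasFDerivAt
    exact h2.comp_hasDerivAt (0 : ℝ) hl
  set B := fderiv ℝ (fderiv ℝ f) x with hB
  set L := Rinv (fderiv ℝ f x) with hL
  have hsymm : B ξ u = B u ξ := by
    have h2 : IsSymmSndFDerivAt ℝ f x := by
      apply (hf.contDiffAt hx).isSymmSndFDerivAt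
      rw [minSmoothness_of_isRCLikeNormedField]
      exact WithTop.coe_le_coe.2 (by exact_mod_cast le_top)
    exact h2 ξ u
  have h2 : HasDerivAt (fun s : ℝ => u + s • ξ) ξ 0 := by
    simpa using ((hasDerivAt_id (0 : ℝ)).smul_const ξ).const_add u
  have h3 : HasDerivAt (fun s : ℝ => -(L (B (u + s • ξ) (u + s • ξ))))
      (-(L (B ξ u + B u ξ))) 0 := by
    have e1 := ((hasDerivAt_const (0 : ℝ) B).clm_apply h2).clm_apply h2
    have e2 : HasDerivAt (fun s : ℝ => L (B (u + s • ξ) (u + s • ξ))) _ 0 :=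
      L.hasFDerivAt.comp_hasDerivAt (0 : ℝ) e1
    have e3 := e2.neg
    simp only [zero_smul, add_zero, zero_add, zero_apply] at e3
    exact e3
  have h4 : (fun s : ℝ => A (x, u + s • ξ)) =ᶠ[𝓝 0] fun s : ℝ => -(L (B (u + s • ξ) (u + s • ξ))) := by
    have h5 : ∀ᶠ s : ℝ in 𝓝 0, ‖u + s • ξ‖ < 2 := by
      have h6 : ContinuousAt (fun s : ℝ => ‖u + s • ξ‖) 0 := h2.continuousAt.norm
      exact h6.eventually_lt continuousAt_const (by simpa using hu2)
    filter_upwards [h5] with s hs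
    have h6 : (x, u + s • ξ) ∈ TSet S := TSet_add h.sub hu (TSet_smul h.sub hξ s)
    exact h.field.eq _ h6 hs.le U f hf hx
  have h5 := h1.unique (h3.congr_of_eventuallyEq h4)
  rw [h5, hsymm, ← two_smul ℝ (B u ξ), map_smul]

/-- It is normal. -/
theorem inner_fderiv_A (h : GFlow F S A K K₂ Φ) {x u ξ e : E} (hu : (x, u) ∈ TSet S)
    (hu2 : ‖u‖ < 2) (hξ : (x, ξ) ∈ TSet S) (he : (x, e) ∈ TSet S) :
    ⟪fderiv ℝ A (x, u) (0, ξ), e⟫_ℝ = 0 := by
  obtain ⟨U, hU, f, hf⟩ := h.sub x (fst_mem_TSet hu)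
  rw [fderiv_A_eq h hu hu2 hξ hf hU, inner_neg_left, inner_smul_left,
    inner_Rinv _ ((mem_TSet_iff hf hU).1 he).2, mul_zero, neg_zero]

/-- Euler's relation. -/
theorem fderiv_A_self (h : GFlow F S A K K₂ Φ) {x u : E} (hu : (x, u) ∈ TSet S)
    (hu2 : ‖u‖ < 2) : fderiv ℝ A (x, u) (0, u) = (2 : ℝ) • A (x, u) := by
  obtain ⟨U, hU, f, hf⟩ := h.sub x (fst_mem_TSet hu)
  rw [fderiv_A_eq h hu hu2 hu hf hU, h.field.eq _ hu hu2.le U f hf hU]
  show _ = (2 : ℝ) • -(Rinv (fderiv ℝ f x) (fderiv ℝ (fderiv ℝ f) x u u))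
  rw [smul_neg]

/-- Symmetry. -/
theorem fderiv_A_symm (h : GFlow F S A K K₂ Φ) {x u ξ : E} (hu : (x, u) ∈ TSet S)
    (hu2 : ‖u‖ < 2) (hξ : (x, ξ) ∈ TSet S) (hξ2 : ‖ξ‖ < 2) :
    fderiv ℝ A (x, u) (0, ξ) = fderiv ℝ A (x, ξ) (0, u) := by
  obtain ⟨U, hU, f, hf⟩ := h.sub x (fst_mem_TSet hu)
  have hsymm : fderiv ℝ (fderiv ℝ f) x ξ u = fderiv ℝ (fderiv ℝ f) x u ξ := by
    have h2 : IsSymmSndFDerivAt ℝ f x := by
      apply (hf.contDiffAt hU).isSymmSndFDerivAt
      rw [minSmoothness_of_isRCLikeNormedField]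
      exact WithTop.coe_le_coe.2 (by exact_mod_cast le_top)
    exact h2 ξ u
  rw [fderiv_A_eq h hu hu2 hξ hf hU, fderiv_A_eq h hξ hξ2 hu hf hU, hsymm]

/-- The Zariski tangent space of the unit tangent bundle. -/
theorem tan_of_ZT (h : GFlow F S A K K₂ Φ) {x w a b : E} (hw : (x, w) ∈ UT S)
    (hab : (a, b) ∈ ZT (UT S) (x, w)) :
    (x, a) ∈ TSet S ∧ (x, b - (2 : ℝ)⁻¹ • fderiv ℝ A (x, w) (0, a)) ∈ TSet S ∧ ⟪w, b⟫_ℝ = 0 := by
  obtain ⟨hwT, hw1⟩ := hw
  simp only at hw1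
  have hxS : x ∈ S := fst_mem_TSet hwT
  obtain ⟨U, hU, f, hf⟩ := h.sub x hxS
  have hVo : IsOpen {q : E × E | q.1 ∈ U} := hf.isOpen.preimage continuous_fst
  have hV : {q : E × E | q.1 ∈ U} ∈ 𝓝 (x, w) := hVo.mem_nhds hU
  have hsm : ∀ q ∈ {q : E × E | q.1 ∈ U}, ContDiffAt ℝ ∞ f q.1 := fun q hq => hf.contDiffAt hq
  have hsmD : ∀ q ∈ {q : E × E | q.1 ∈ U}, ContDiffAt ℝ ∞ (fderiv ℝ f) q.1 := fun q hq =>
    (hf.contDiffAt hq).fderiv_right (by norm_num)
  -- the base component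
  have h1 : fderiv ℝ f x a = 0 := by
    have h2 := fderiv_eq_zero' (R := UT S) (f := fun q : E × E => f q.1) hV
      (fun q hq => (ContDiffAt.comp q (g := f) (f := fun q : E × E => q.1) (hsm q hq)
        contDiffAt_fst).contDiffWithinAt)
      (fun q hq hqU => (hf.mem_iff hqU).1 (fst_mem_TSet hq.1)) hab
    have h3 : HasFDerivAt (fun q : E × E => f q.1)
        ((fderiv ℝ f x).comp (ContinuousLinearMap.fst ℝ E E)) (x, w) :=
      HasFDerivAt.comp (g := f) (f := fun q : E × E => q.1) (x, w)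
        ((hf.contDiffAt hU).differentiableAt (by simp)).hasFDerivAt hasFDerivAt_fst
    rw [h3.fderiv] at h2
    exact h2
  have ha : (x, a) ∈ TSet S := (mem_TSet_iff hf hU).2 ⟨hxS, h1⟩
  refine ⟨ha, ?_, ?_⟩
  · -- the second component
    have h2 : fderiv ℝ (fderiv ℝ f) x a w + fderiv ℝ f x b = 0 := by
      have hsmf : ∀ q ∈ {q : E × E | q.1 ∈ U},
          ContDiffAt ℝ ∞ (fun q : E × E => fderiv ℝ f q.1 q.2) q := fun q hq =>
        (ContDiffAt.comp q (g := fderiv ℝ f) (f := fun q : E × E => q.1) (hsmD q hq)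
          contDiffAt_fst).clm_apply contDiffAt_snd
      have h2 := fderiv_eq_zero' (R := UT S) (f := fun q : E × E => fderiv ℝ f q.1 q.2) hV
        (fun q hq => (hsmf q hq).contDiffWithinAt)
        (fun q hq hqU => ((mem_TSet_iff hf hqU).1 hq.1).2) hab
      have h3 : HasFDerivAt (fun q : E × E => fderiv ℝ f q.1)
          ((fderiv ℝ (fderiv ℝ f) x).comp (ContinuousLinearMap.fst ℝ E E)) (x, w) :=
        HasFDerivAt.comp (g := fderiv ℝ f) (f := fun q : E × E => q.1) (x, w)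
          ((hsmD (x, w) hU).differentiableAt (by simp)).hasFDerivAt hasFDerivAt_fst
      have h4 := h3.clm_apply (hasFDerivAt_snd (𝕜 := ℝ) (p := (x, w)))
      rw [h4.fderiv] at h2
      simp only [add_apply, ContinuousLinearMap.comp_apply,
        ContinuousLinearMap.flip_apply, ContinuousLinearMap.coe_fst',
        ContinuousLinearMap.coe_snd'] at h2
      rw [add_comm]
      exact h2
    rw [mem_TSet_iff hf hU]
    refine ⟨hxS, ?_⟩
    have hsymm : fderiv ℝ (fderiv ℝ f) x w a = fderiv ℝ (fderiv ℝ f) x a w := by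
      have h2 : IsSymmSndFDerivAt ℝ f x := by
        apply (hf.contDiffAt hU).isSymmSndFDerivAt
        rw [minSmoothness_of_isRCLikeNormedField]
        exact WithTop.coe_le_coe.2 (by exact_mod_cast le_top)
      exact h2 w a
    rw [fderiv_A_eq h hwT (by rw [hw1]; norm_num) ha hf hU, map_sub, map_smul, map_neg, map_smul,
      comp_Rinv (hf.surj _ hU), hsymm, smul_neg, smul_smul, inv_mul_cancel₀ (two_ne_zero' ℝ),
      one_smul, sub_neg_eq_add, add_comm]
    exact h2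
  · have h2 := fderiv_eq_zero (R := UT S) (f := fun q : E × E => ⟪q.2, q.2⟫_ℝ - 1) (U := univ)
      univ_mem (((contDiff_snd.inner ℝ contDiff_snd).sub contDiff_const).contDiffOn)
      (fun q hq _ => by rw [real_inner_self_eq_norm_sq, hq.2]; norm_num) hab
    have h3 : HasFDerivAt (fun q : E × E => ⟪q.2, q.2⟫_ℝ - 1)
        _ (x, w) := ((hasFDerivAt_snd (𝕜 := ℝ) (p := ((x, w) : E × E))).inner ℝ
          (hasFDerivAt_snd (𝕜 := ℝ) (p := ((x, w) : E × E)))).sub_const 1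
    rw [h3.fderiv] at h2
    simp only [ContinuousLinearMap.comp_apply, fderivInnerCLM_apply,
      ContinuousLinearMap.prod_apply, ContinuousLinearMap.coe_snd'] at h2
    rw [real_inner_comm w b] at h2
    linarith

end Pool.Agent.H52.S3
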