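import Pool.Agent.H52.S3.RawA
import Pool.Agent.H52.S3.SecFund

/-!
# Section 3 of `db5e86_proof`: Lemma A
-/

set_option autoImplicit false
set_option linter.unusedSectionVars false

open scoped InnerProductSpace Topology ContDiff
open Set Filter

namespace Pool.Agent.H52.S3

open Pool.Agent.H91.GE Pool.Agent.H59.LV Pool.Agent.H59.ND Pool.Agent.H59.Zar

variable {E F : Type*} [NormedAddCommGroup E] [InnerProductSpace ℝ E] [FiniteDimensional ℝ E]
  [NormedAddCommGroup F] [InnerProductSpace ℝ F] [FiniteDimensional ℝ F]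
  {S : Set E} {A : E × E → E} {K K₂ : NNReal} {Φ : ℝ → E × E → E × E}

/-- A closed relation in the unit tangent bundle which is invariant under the flow in each
variable. -/
structure RInv (Φ : ℝ → E × E → E × E) (S : Set E) (R : Set ((E × E) × (E × E))) : Prop where
  sub : ∀ q ∈ R, q.1 ∈ UT S ∧ q.2 ∈ UT S
  inv : ∀ q ∈ R, ∀ s t, (Φ s q.1, Φ t q.2) ∈ R

variable {R : Set ((E × E) × (E × E))}

theorem curve_ZT {V : Type*} [NormedAddCommGroup V] [NormedSpace ℝ V] {R : Set V} {c : ℝ → V}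
    {a : V} (hc : HasDerivAt c a 0) (hR : ∀ t, c t ∈ R) : a ∈ ZT R (c 0) := by
  intro f hf
  have h2 : HasFDerivAt f (fderiv ℝ f (c 0)) (c 0) :=
    (hf.1.differentiable (by simp) (c 0)).hasFDerivAt
  have h3 : HasDerivAt (f ∘ c) (fderiv ℝ f (c 0) a) 0 := h2.comp_hasDerivAt 0 hc
  have e : (f ∘ c) = fun _ => (0 : ℝ) := by
    funext t
    exact hf.2 _ (hR t)
  rw [e] at h3
  exact h3.unique (hasDerivAt_const (0 : ℝ) (0 : ℝ))

theorem flow_deriv0 (h : GFlow F S A K K₂ Φ) (w : E × E) :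
    HasDerivAt (fun t => Φ t w) (w.2, A w) 0 := by
  have h1 := h.flow.deriv 0 w
  rw [h.flow.zero] at h1
  exact h1

theorem X1_mem (h : GFlow F S A K K₂ Φ) (hR : RInv Φ S R) {q : (E × E) × (E × E)} (hq : q ∈ R) :
    ((q.1.2, A q.1), (0 : E × E)) ∈ ZT R q := by
  have h1 : HasDerivAt (fun t => (Φ t q.1, q.2)) ((q.1.2, A q.1), (0 : E × E)) 0 :=
    (flow_deriv0 h q.1).prodMk (hasDerivAt_const 0 q.2)
  have h2 := curve_ZT h1 (R := R) (fun t => by
    have := hR.inv q hq t 0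
    rwa [h.flow.zero] at this)
  rw [h.flow.zero] at h2
  exact h2

theorem X2_mem (h : GFlow F S A K K₂ Φ) (hR : RInv Φ S R) {q : (E × E) × (E × E)} (hq : q ∈ R) :
    ((0 : E × E), (q.2.2, A q.2)) ∈ ZT R q := by
  have h1 : HasDerivAt (fun t => (q.1, Φ t q.2)) ((0 : E × E), (q.2.2, A q.2)) 0 :=
    (hasDerivAt_const 0 q.1).prodMk (flow_deriv0 h q.2)
  have h2 := curve_ZT h1 (R := R) (fun t => by
    have := hR.inv q hq 0 t
    rwa [h.flow.zero] at this)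
  rw [h.flow.zero] at h2
  exact h2

theorem Xk_mem (h : GFlow F S A K K₂ Φ) (hR : RInv Φ S R) {q : (E × E) × (E × E)} (hq : q ∈ R)
    (κ : (E × E) × (E × E) → ℝ) : Xk A κ q ∈ ZT R q := by
  have h1 := (ZT R q).add_mem (X1_mem h hR hq) ((ZT R q).smul_mem (κ q) (X2_mem h hR hq))
  have h2 : Xk A κ q = ((q.1.2, A q.1), (0 : E × E)) + κ q • ((0 : E × E), (q.2.2, A q.2)) := by
    simp [Xk]
  rw [h2]
  exact h1

/-- `IdR` from the identity alone. -/
theorem IdR.mk' (h : GFlow F S A K K₂ Φ) (hR : RInv Φ S R) {U : Set ((E × E) × (E × E))}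
    (hU : IsOpen U) {W : Type*} [NormedAddCommGroup W] [NormedSpace ℝ W] {ζ : E × E → W}
    {κ : (E × E) × (E × E) → ℝ}
    (hζ : ∀ q ∈ U, ContDiffAt ℝ ∞ ζ (q.1.1, q.2.1)) (hκ : ContDiffOn ℝ ∞ κ U)
    (hid : ∀ q ∈ R, q ∈ U → fderiv ℝ ζ (q.1.1, q.2.1) (q.1.2, κ q • q.2.2) = 0) :
    IdR R U ζ A κ :=
  ⟨hU, hζ, hκ, h.field.smooth, hid, fun _ hq _ => Xk_mem h hR hq κ⟩

/-- The Zariski tangent space of `R` maps to those of the unit tangent bundle. -/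
theorem ZT_fst_snd (hR : RInv Φ S R) {q C : (E × E) × (E × E)} (hC : C ∈ ZT R q) :
    C.1 ∈ ZT (UT S) q.1 ∧ C.2 ∈ ZT (UT S) q.2 := by
  have key : ∀ (L : ((E × E) × (E × E)) →L[ℝ] E × E), (∀ r ∈ R, L r ∈ UT S) →
      L C ∈ ZT (UT S) (L q) := by
    intro L hL
    have h1 := map_mem_ZT (R := R) (R' := UT S) (Θ := L) (p := q) (U := univ) univ_mem
      L.contDiff.contDiffOn (fun r hr _ => hL r hr) hC
    rwa [L.fderiv] at h1
  exact ⟨key (ContinuousLinearMap.fst ℝ (E × E) (E × E)) fun r hr => (hR.sub r hr).1,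
    key (ContinuousLinearMap.snd ℝ (E × E) (E × E)) fun r hr => (hR.sub r hr).2⟩

/-- The pairs `(e', e'')` which pair with the kernel of `D ζ`. -/
def PairR {W : Type*} [NormedAddCommGroup W] [NormedSpace ℝ W] (S : Set E) (ζ : E × E → W) (k : ℝ)
    (p : (E × E) × (E × E)) (e' e'' : E) : Prop :=
  ∀ η η' : E, (p.1.1, η) ∈ TSet S → (p.2.1, η') ∈ TSet S →
    fderiv ℝ ζ (p.1.1, p.2.1) (η, η') = 0 → ⟪η', e'⟫_ℝ = k * ⟪η, e''⟫_ℝ

/-- **Lemma A**. -/
theorem lemmaA (h : GFlow F S A K K₂ Φ) (hR : RInv Φ S R) {U : Set ((E × E) × (E × E))}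
    {W : Type*} [NormedAddCommGroup W] [NormedSpace ℝ W] [FiniteDimensional ℝ W] {ζ : E × E → W}
    {κ : (E × E) × (E × E) → ℝ} (hid : IdR R U ζ A κ) {p : (E × E) × (E × E)} (hpR : p ∈ R)
    (hp : p ∈ U) (hk : κ p ≠ 0) {e' e'' : E} (he' : (p.2.1, e') ∈ TSet S)
    (he'' : (p.1.1, e'') ∈ TSet S) (hve : ⟪p.2.2, e'⟫_ℝ = 0) (hpair : PairR S ζ (κ p) p e' e'')
    {ξ ξ' a b : E} {β : ℝ} (hξ : (((0 : E), ξ), ((0 : E), ξ')) ∈ ZT R p)
    (hC : ((ξ, a), (κ p • ξ' + β • p.2.2, b)) ∈ ZT R p) :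
    ⟪a, e''⟫_ℝ - ⟪b, e'⟫_ℝ = -(gk A κ p / (2 * κ p)) * ⟪ξ', e'⟫_ℝ := by
  obtain ⟨⟨⟨x, w⟩, ⟨y, v⟩⟩, rfl⟩ : ∃ q, q = p := ⟨p, rfl⟩
  simp only at hξ hC he' he'' hve hk
  obtain ⟨hw, hv⟩ := hR.sub _ hpR
  simp only at hw hv
  have hw1 : ‖w‖ < 2 := by
    have := hw.2
    simp only at this
    rw [this]; norm_num
  have hv1 : ‖v‖ < 2 := by
    have := hv.2
    simp only at this
    rw [this]; norm_num
  set β₀ := fderiv ℝ κ ((x, w), (y, v)) ((0, ξ), (0, ξ')) with hβ₀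
  -- correct the base component
  have hC' : ((ξ, a), (κ ((x, w), (y, v)) • ξ' + β₀ • v, b + (β₀ - β) • A (y, v)))
      ∈ ZT R ((x, w), (y, v)) := by
    have h1 := (ZT R ((x, w), (y, v))).add_mem hC
      ((ZT R ((x, w), (y, v))).smul_mem (β₀ - β) (X2_mem h hR hpR))
    have h2 : ((ξ, a), (κ ((x, w), (y, v)) • ξ' + β₀ • v, b + (β₀ - β) • A (y, v)))
        = ((ξ, a), (κ ((x, w), (y, v)) • ξ' + β • v, b))
          + (β₀ - β) • ((0 : E × E), (v, A (y, v))) := by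
      simp only [Prod.smul_mk, Prod.mk_add_mk, smul_zero, add_zero, Prod.mk.injEq, true_and,
        and_true]
      module
    rw [h2]
    exact h1
  obtain ⟨c, hc⟩ := hid.raw hp hξ hC'
  simp only at hc
  have tξ := (ZT_fst_snd hR hξ)
  simp only at tξ
  -- vertical vectors
  have h0w : fderiv ℝ A (x, w) (0, (0 : E)) = 0 := by
    have : ((0 : E), (0 : E)) = 0 := rfl
    rw [this, map_zero]
  have h0v : fderiv ℝ A (y, v) (0, (0 : E)) = 0 := by
    have : ((0 : E), (0 : E)) = 0 := rfl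
    rw [this, map_zero]
  have hξT : (x, ξ) ∈ TSet S := by
    have h1 := (tan_of_ZT h hw tξ.1).2.1
    rwa [h0w, smul_zero, sub_zero] at h1
  have hξT' : (y, ξ') ∈ TSet S := by
    have h1 := (tan_of_ZT h hv tξ.2).2.1
    rwa [h0v, smul_zero, sub_zero] at h1
  have tC := ZT_fst_snd hR hC'
  simp only at tC
  have ha := (tan_of_ZT h hw tC.1).2.1
  have hb := (tan_of_ZT h hv tC.2).2.1
  set k := κ ((x, w), (y, v)) with hkdef
  have hDv : fderiv ℝ A (y, v) (0, k • ξ' + β₀ • v)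
      = k • fderiv ℝ A (y, v) (0, ξ') + (2 * β₀) • A (y, v) := by
    have e1 : ((0 : E), k • ξ' + β₀ • v) = k • ((0 : E), ξ') + β₀ • ((0 : E), v) := by
      simp
    rw [e1, map_add, map_smul, map_smul, fderiv_A_self h hv.1 hv1, smul_smul, mul_comm β₀ 2]
  set P := fderiv ℝ A (x, w) (0, ξ) with hP
  set Q := fderiv ℝ A (y, v) (0, ξ') with hQ
  have hη : (x, (2 : ℝ) • a - P) ∈ TSet S := by
    have h1 := TSet_smul h.sub ha 2
    rwa [smul_sub, smul_smul, mul_inv_cancel₀ (two_ne_zero' ℝ), one_smul] at h1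
  have hη' : (y, (2 * k) • (b + (β₀ - β) • A (y, v)) - (k * k) • Q - (2 * k * β₀) • A (y, v)
      - gk A κ ((x, w), (y, v)) • ξ' + c • v) ∈ TSet S := by
    rw [hDv] at hb
    have h1 := TSet_smul h.sub hb (2 * k)
    have h2 := TSet_add h.sub (TSet_sub h.sub h1
      (TSet_smul h.sub hξT' (gk A κ ((x, w), (y, v))))) (TSet_smul h.sub hv.1 c)
    have h3 : (2 * k) • (b + (β₀ - β) • A (y, v) - (2 : ℝ)⁻¹ • (k • Q + (2 * β₀) • A (y, v)))
        - gk A κ ((x, w), (y, v)) • ξ' + c • v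
        = (2 * k) • (b + (β₀ - β) • A (y, v)) - (k * k) • Q - (2 * k * β₀) • A (y, v)
      - gk A κ ((x, w), (y, v)) • ξ' + c • v := by
      module
    rw [h3] at h2
    exact h2
  have h1 := hpair _ _ hη hη' hc
  have hAe : ⟪A (y, v), e'⟫_ℝ = 0 := h.inner_A hv.1 hv1.le he'
  have hQe : ⟪Q, e'⟫_ℝ = 0 := inner_fderiv_A h hv.1 hv1 hξT' he'
  have hPe : ⟪P, e''⟫_ℝ = 0 := inner_fderiv_A h hw.1 hw1 hξT he''
  simp only [inner_add_left, inner_sub_left, real_inner_smul_left, hAe, hQe, hPe, hve, mul_zero,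
    sub_zero, add_zero] at h1
  field_simp
  linarith

end Pool.Agent.H52.S3
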