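import Pool.Agent.H59.Zar.Basic

/-!
# Section 3 of `db5e86_proof`: the calculus behind Lemma A

`R` is any subset of `(E × E) × (E × E)`, `ζ : E × E → W` is smooth, and `D ζ (x, y) (w, κ v) = 0`
on `R`.  The identity is differentiated along the field `((w, A(x, w)), (κ v, κ A(y, v)))`, and the
result along a vertical vector of the Zariski tangent space.
-/

set_option autoImplicit false
set_option linter.unusedSectionVars false

open scoped Topology ContDiff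
open Set Filter

namespace Pool.Agent.H52.S3

open Pool.Agent.H59.Zar

variable {E W : Type*} [NormedAddCommGroup E] [NormedSpace ℝ E] [FiniteDimensional ℝ E]
  [NormedAddCommGroup W] [NormedSpace ℝ W] [FiniteDimensional ℝ W]

/-- The base points. -/
noncomputable def bs (E : Type*) [NormedAddCommGroup E] [NormedSpace ℝ E] :
    ((E × E) × (E × E)) →L[ℝ] E × E :=
  ((ContinuousLinearMap.fst ℝ E E).comp (ContinuousLinearMap.fst ℝ (E × E) (E × E))).prod
    ((ContinuousLinearMap.fst ℝ E E).comp (ContinuousLinearMap.snd ℝ (E × E) (E × E)))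

@[simp] theorem bs_apply (q : (E × E) × (E × E)) : bs E q = (q.1.1, q.2.1) := rfl

/-- The field `X + κ X`. -/
def Xk (A : E × E → E) (κ : (E × E) × (E × E) → ℝ) (q : (E × E) × (E × E)) :
    (E × E) × (E × E) := ((q.1.2, A q.1), (κ q • q.2.2, κ q • A q.2))

/-- The derivative of `κ` along the field. -/
noncomputable def gk (A : E × E → E) (κ : (E × E) × (E × E) → ℝ) (q : (E × E) × (E × E)) : ℝ :=
  fderiv ℝ κ q (Xk A κ q)

theorem line_zero {V : Type*} [NormedAddCommGroup V] [NormedSpace ℝ V] {f : V → W} {q C : V}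
    (hf : DifferentiableAt ℝ f q) (hz : fderiv ℝ f q C = 0) {d : W}
    (hd : HasDerivAt (fun s : ℝ => f (q + s • C)) d 0) : d = 0 := by
  have h1 : HasDerivAt (fun s : ℝ => q + s • C) C 0 := by
    simpa using ((hasDerivAt_id (0 : ℝ)).smul_const C).const_add q
  have h2 : HasFDerivAt f (fderiv ℝ f q) (q + (0 : ℝ) • C) := by
    rw [zero_smul, add_zero]; exact hf.hasFDerivAt
  have h3 := h2.comp_hasDerivAt (0 : ℝ) h1
  rw [hz] at h3
  exact hd.unique h3

theorem line_deriv {V : Type*} [NormedAddCommGroup V] [NormedSpace ℝ V] {f : V → W} {q : V}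
    (hf : DifferentiableAt ℝ f q) (C : V) :
    HasDerivAt (fun s : ℝ => f (q + s • C)) (fderiv ℝ f q C) 0 := by
  have h1 : HasDerivAt (fun s : ℝ => q + s • C) C 0 := by
    simpa using ((hasDerivAt_id (0 : ℝ)).smul_const C).const_add q
  have h2 : HasFDerivAt f (fderiv ℝ f q) (q + (0 : ℝ) • C) := by
    rw [zero_smul, add_zero]; exact hf.hasFDerivAt
  exact h2.comp_hasDerivAt (0 : ℝ) h1

/-- The data: a smooth map `ζ`, a smooth function `κ`, an identity on `R` near `p`. -/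
structure IdR (R : Set ((E × E) × (E × E))) (U : Set ((E × E) × (E × E))) (ζ : E × E → W)
    (A : E × E → E) (κ : (E × E) × (E × E) → ℝ) : Prop where
  isOpen : IsOpen U
  smooth : ∀ q ∈ U, ContDiffAt ℝ ∞ ζ (q.1.1, q.2.1)
  smoothκ : ContDiffOn ℝ ∞ κ U
  smoothA : ContDiff ℝ ∞ A
  id : ∀ q ∈ R, q ∈ U → fderiv ℝ ζ (q.1.1, q.2.1) (q.1.2, κ q • q.2.2) = 0
  field : ∀ q ∈ R, q ∈ U → Xk A κ q ∈ ZT R q

section

variable {R U : Set ((E × E) × (E × E))} {ζ : E × E → W} {A : E × E → E}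
  {κ : (E × E) × (E × E) → ℝ}

theorem IdR.smoothD (h : IdR R U ζ A κ) {q : (E × E) × (E × E)} (hq : q ∈ U) :
    ContDiffAt ℝ ∞ (fderiv ℝ ζ) (q.1.1, q.2.1) :=
  (h.smooth q hq).fderiv_right (by norm_num)

theorem IdR.smoothD2 (h : IdR R U ζ A κ) {q : (E × E) × (E × E)} (hq : q ∈ U) :
    ContDiffAt ℝ ∞ (fderiv ℝ (fderiv ℝ ζ)) (q.1.1, q.2.1) :=
  (h.smoothD hq).fderiv_right (by norm_num)

theorem IdR.symm (h : IdR R U ζ A κ) {q : (E × E) × (E × E)} (hq : q ∈ U) (a b : E × E) :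
    fderiv ℝ (fderiv ℝ ζ) (q.1.1, q.2.1) a b = fderiv ℝ (fderiv ℝ ζ) (q.1.1, q.2.1) b a := by
  have h1 : IsSymmSndFDerivAt ℝ ζ (q.1.1, q.2.1) := by
    apply (h.smooth q hq).isSymmSndFDerivAt
    rw [minSmoothness_of_isRCLikeNormedField]
    exact WithTop.coe_le_coe.2 (by exact_mod_cast le_top)
  exact h1 a b

/-- (2): the identity differentiated along an element of the Zariski tangent space. -/
theorem IdR.first (h : IdR R U ζ A κ) {q : (E × E) × (E × E)} (hq : q ∈ U)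
    {C : (E × E) × (E × E)} (hC : C ∈ ZT R q) :
    fderiv ℝ (fderiv ℝ ζ) (q.1.1, q.2.1) (C.1.1, C.2.1) (q.1.2, κ q • q.2.2)
      + fderiv ℝ ζ (q.1.1, q.2.1) (C.1.2, κ q • C.2.2 + fderiv ℝ κ q C • q.2.2) = 0 := by
  have hUq : U ∈ 𝓝 q := h.isOpen.mem_nhds hq
  have hsm : ∀ r ∈ U, ContDiffAt ℝ ∞
      (fun r : (E × E) × (E × E) => fderiv ℝ ζ (r.1.1, r.2.1) (r.1.2, κ r • r.2.2)) r := by
    intro r hr
    have h1 : ContDiffAt ℝ ∞ (fun r : (E × E) × (E × E) => fderiv ℝ ζ (r.1.1, r.2.1)) r :=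
      ContDiffAt.comp r (f := fun r : (E × E) × (E × E) => bs E r) (g := fderiv ℝ ζ)
        (h.smoothD hr) (bs E).contDiff.contDiffAt
    have h2 : ContDiffAt ℝ ∞ (fun r : (E × E) × (E × E) => (r.1.2, κ r • r.2.2)) r :=
      (contDiffAt_fst.snd).prodMk
        ((h.smoothκ.contDiffAt (h.isOpen.mem_nhds hr)).smul contDiffAt_snd.snd)
    exact h1.clm_apply h2
  have h0 := fderiv_eq_zero' (R := R) hUq
    (fun r hr => (hsm r hr).contDiffWithinAt) (fun r hrR hr => h.id r hrR hr) hC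
  have hκ : DifferentiableAt ℝ κ q :=
    (h.smoothκ.contDiffAt hUq).differentiableAt (by simp)
  refine line_zero ((hsm q hq).differentiableAt (by simp)) h0 ?_
  have hD : DifferentiableAt ℝ (fun r : (E × E) × (E × E) => fderiv ℝ ζ (bs E r)) q :=
    ((ContDiffAt.comp q (f := fun r : (E × E) × (E × E) => bs E r) (g := fderiv ℝ ζ)
        (h.smoothD hq) (bs E).contDiff.contDiffAt).differentiableAt (by simp))
  have e1 : HasDerivAt (fun s : ℝ => fderiv ℝ ζ (bs E (q + s • C)))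
      (fderiv ℝ (fderiv ℝ ζ) (q.1.1, q.2.1) (C.1.1, C.2.1)) 0 := by
    have h1 := line_deriv hD C
    have h2 : fderiv ℝ (fun r : (E × E) × (E × E) => fderiv ℝ ζ (bs E r)) q
        = (fderiv ℝ (fderiv ℝ ζ) (q.1.1, q.2.1)).comp (bs E) := by
      have h3 : HasFDerivAt (fderiv ℝ ζ) (fderiv ℝ (fderiv ℝ ζ) (q.1.1, q.2.1)) (bs E q) :=
        ((h.smoothD hq).differentiableAt (by simp)).hasFDerivAt
      exact (h3.comp q (bs E).hasFDerivAt).fderiv
    rw [h2] at h1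
    exact h1
  have e2 : HasDerivAt (fun s : ℝ => κ (q + s • C)) (fderiv ℝ κ q C) 0 := line_deriv hκ C
  have e3 : HasDerivAt (fun s : ℝ => q.2.2 + s • C.2.2) C.2.2 0 := by
    simpa using ((hasDerivAt_id (0 : ℝ)).smul_const C.2.2).const_add q.2.2
  have e4 : HasDerivAt (fun s : ℝ => q.1.2 + s • C.1.2) C.1.2 0 := by
    simpa using ((hasDerivAt_id (0 : ℝ)).smul_const C.1.2).const_add q.1.2
  have e5 := e1.clm_apply (e4.prodMk (e2.smul e3))
  simpa using e5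

theorem IdR.smooth_gk (h : IdR R U ζ A κ) {q : (E × E) × (E × E)} (hq : q ∈ U) :
    ContDiffAt ℝ ∞ (gk A κ) q := by
  have hUq : U ∈ 𝓝 q := h.isOpen.mem_nhds hq
  have h1 : ContDiffAt ℝ ∞ (fderiv ℝ κ) q :=
    (h.smoothκ.contDiffAt hUq).fderiv_right (by norm_num)
  have h2 : ContDiffAt ℝ ∞ (Xk A κ) q := by
    have hκ := h.smoothκ.contDiffAt hUq
    exact ((contDiffAt_fst.snd).prodMk (h.smoothA.contDiffAt.comp q contDiffAt_fst)).prodMk
      ((hκ.smul contDiffAt_snd.snd).prodMk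
        (hκ.smul (h.smoothA.contDiffAt.comp q contDiffAt_snd)))
  exact h1.clm_apply h2

/-- (3): the identity differentiated along the field. -/
theorem IdR.second (h : IdR R U ζ A κ) {q : (E × E) × (E × E)} (hqR : q ∈ R) (hq : q ∈ U) :
    fderiv ℝ (fderiv ℝ ζ) (q.1.1, q.2.1) (q.1.2, κ q • q.2.2) (q.1.2, κ q • q.2.2)
      + fderiv ℝ ζ (q.1.1, q.2.1) (A q.1, κ q • κ q • A q.2 + gk A κ q • q.2.2) = 0 :=
  h.first hq (h.field q hqR hq)

/-- (4): the result differentiated along a vertical vector. -/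
theorem IdR.third (h : IdR R U ζ A κ) {p : (E × E) × (E × E)} (hp : p ∈ U)
    {ξ ξ' : E} (hξ : (((0 : E), ξ), ((0 : E), ξ')) ∈ ZT R p) :
    (2 : ℝ) • fderiv ℝ (fderiv ℝ ζ) (p.1.1, p.2.1)
        (ξ, κ p • ξ' + fderiv ℝ κ p ((0, ξ), (0, ξ')) • p.2.2) (p.1.2, κ p • p.2.2)
      + fderiv ℝ ζ (p.1.1, p.2.1)
        (fderiv ℝ A p.1 (0, ξ),
          (κ p * κ p) • fderiv ℝ A p.2 (0, ξ')
            + (2 * κ p * fderiv ℝ κ p ((0, ξ), (0, ξ'))) • A p.2
            + gk A κ p • ξ' + fderiv ℝ (gk A κ) p ((0, ξ), (0, ξ')) • p.2.2) = 0 := by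
  set B : (E × E) × (E × E) := ((0, ξ), (0, ξ')) with hB
  have hUp : U ∈ 𝓝 p := h.isOpen.mem_nhds hp
  have hsm : ∀ r ∈ U, ContDiffAt ℝ ∞ (fun r : (E × E) × (E × E) =>
      fderiv ℝ (fderiv ℝ ζ) (r.1.1, r.2.1) (r.1.2, κ r • r.2.2) (r.1.2, κ r • r.2.2)
      + fderiv ℝ ζ (r.1.1, r.2.1) (A r.1, κ r • κ r • A r.2 + gk A κ r • r.2.2)) r := by
    intro r hr
    have hκ := h.smoothκ.contDiffAt (h.isOpen.mem_nhds hr)
    have h1 : ContDiffAt ℝ ∞ (fun r : (E × E) × (E × E) => fderiv ℝ ζ (r.1.1, r.2.1)) r :=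
      ContDiffAt.comp r (f := fun r : (E × E) × (E × E) => bs E r) (g := fderiv ℝ ζ)
        (h.smoothD hr) (bs E).contDiff.contDiffAt
    have h1' : ContDiffAt ℝ ∞
        (fun r : (E × E) × (E × E) => fderiv ℝ (fderiv ℝ ζ) (r.1.1, r.2.1)) r :=
      ContDiffAt.comp r (f := fun r : (E × E) × (E × E) => bs E r) (g := fderiv ℝ (fderiv ℝ ζ))
        (h.smoothD2 hr) (bs E).contDiff.contDiffAt
    have h2 : ContDiffAt ℝ ∞ (fun r : (E × E) × (E × E) => (r.1.2, κ r • r.2.2)) r :=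
      (contDiffAt_fst.snd).prodMk (hκ.smul contDiffAt_snd.snd)
    have h3 : ContDiffAt ℝ ∞ (fun r : (E × E) × (E × E) =>
        (A r.1, κ r • κ r • A r.2 + gk A κ r • r.2.2)) r :=
      (h.smoothA.contDiffAt.comp r contDiffAt_fst).prodMk
        ((hκ.smul (hκ.smul (h.smoothA.contDiffAt.comp r contDiffAt_snd))).add
          ((h.smooth_gk hr).smul contDiffAt_snd.snd))
    exact ((h1'.clm_apply h2).clm_apply h2).add (h1.clm_apply h3)
  have h0 := fderiv_eq_zero' (R := R) hUp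
    (fun r hr => (hsm r hr).contDiffWithinAt) (fun r hrR hr => h.second hrR hr) hξ
  have hκ : DifferentiableAt ℝ κ p :=
    (h.smoothκ.contDiffAt hUp).differentiableAt (by simp)
  have hg : DifferentiableAt ℝ (gk A κ) p := (h.smooth_gk hp).differentiableAt (by simp)
  have hline : ∀ s : ℝ, p + s • B = ((p.1.1, p.1.2 + s • ξ), (p.2.1, p.2.2 + s • ξ')) := by
    intro s
    simp [hB, Prod.ext_iff]
  have hA : ∀ (z : E × E) (η : E), HasDerivAt (fun s : ℝ => A (z.1, z.2 + s • η))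
      (fderiv ℝ A z (0, η)) 0 := by
    intro z η
    have h1 := line_deriv (f := A) (q := z) (h.smoothA.contDiffAt.differentiableAt (by simp)) (0, η)
    have h2 : (fun s : ℝ => A (z + s • ((0 : E), η))) = fun s : ℝ => A (z.1, z.2 + s • η) := by
      funext s
      congr 1
      simp [Prod.ext_iff]
    rw [h2] at h1
    exact h1
  have e2 : HasDerivAt (fun s : ℝ => κ (p + s • B)) (fderiv ℝ κ p B) 0 := line_deriv hκ B
  have e2' : HasDerivAt (fun s : ℝ => gk A κ (p + s • B)) (fderiv ℝ (gk A κ) p B) 0 :=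
    line_deriv hg B
  have e3 : HasDerivAt (fun s : ℝ => p.2.2 + s • ξ') ξ' 0 := by
    simpa using ((hasDerivAt_id (0 : ℝ)).smul_const ξ').const_add p.2.2
  have e4 : HasDerivAt (fun s : ℝ => p.1.2 + s • ξ) ξ 0 := by
    simpa using ((hasDerivAt_id (0 : ℝ)).smul_const ξ).const_add p.1.2
  have e5 := e4.prodMk (e2.smul e3)
  have e6 := (hA p.1 ξ).prodMk ((e2.smul (e2.smul (hA p.2 ξ'))).add (e2'.smul e3))
  have e7 := ((hasDerivAt_const (0 : ℝ) (fderiv ℝ (fderiv ℝ ζ) (p.1.1, p.2.1))).clm_apply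
    e5).clm_apply e5
  have e8 := (hasDerivAt_const (0 : ℝ) (fderiv ℝ ζ (p.1.1, p.2.1))).clm_apply e6
  have e9 := e7.add e8
  have e10 := line_zero ((hsm p hp).differentiableAt (by simp)) h0 (by
    refine e9.congr_of_eventuallyEq (Eventually.of_forall fun s => ?_)
    simp only [hline]
    rfl)
  simp only [zero_smul, add_zero, zero_add, zero_apply, smul_add, smul_smul, Pi.smul_apply',
    Prod.mk.eta] at e10
  rw [h.symm hp (p.1.2, κ p • p.2.2) (ξ, κ p • ξ' + (fderiv ℝ κ p) B • p.2.2)] at e10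
  have hk : (κ p * κ p) • fderiv ℝ A p.2 (0, ξ') + (2 * κ p * fderiv ℝ κ p B) • A p.2
      + gk A κ p • ξ' + fderiv ℝ (gk A κ) p B • p.2.2
      = (κ p * κ p) • fderiv ℝ A p.2 (0, ξ') + (κ p * fderiv ℝ κ p B) • A p.2
        + (fderiv ℝ κ p B * κ p) • A p.2 + (gk A κ p • ξ' + fderiv ℝ (gk A κ) p B • p.2.2) := by
    module
  rw [two_smul, hk]
  exact e10

/-- Lemma A, raw form: `2 (2) - (4)`. -/
theorem IdR.raw (h : IdR R U ζ A κ) {p : (E × E) × (E × E)} (hp : p ∈ U)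
    {ξ ξ' a b : E} (hξ : (((0 : E), ξ), ((0 : E), ξ')) ∈ ZT R p)
    (hC : ((ξ, a), (κ p • ξ' + fderiv ℝ κ p ((0, ξ), (0, ξ')) • p.2.2, b)) ∈ ZT R p) :
    ∃ c : ℝ, fderiv ℝ ζ (p.1.1, p.2.1) ((2 : ℝ) • a - fderiv ℝ A p.1 (0, ξ),
      (2 * κ p) • b - (κ p * κ p) • fderiv ℝ A p.2 (0, ξ')
        - (2 * κ p * fderiv ℝ κ p ((0, ξ), (0, ξ'))) • A p.2 - gk A κ p • ξ' + c • p.2.2) = 0 := by
  have h1 := h.first hp hC
  have h2 := h.third hp hξ
  simp only at h1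
  set β := fderiv ℝ κ p ((0, ξ), (0, ξ')) with hβ
  set γ := fderiv ℝ κ p ((ξ, a), (κ p • ξ' + β • p.2.2, b)) with hγ
  refine ⟨2 * γ - fderiv ℝ (gk A κ) p ((0, ξ), (0, ξ')), ?_⟩
  have h3 : (((2 : ℝ) • a - fderiv ℝ A p.1 (0, ξ),
      (2 * κ p) • b - (κ p * κ p) • fderiv ℝ A p.2 (0, ξ')
        - (2 * κ p * β) • A p.2 - gk A κ p • ξ'
        + (2 * γ - fderiv ℝ (gk A κ) p ((0, ξ), (0, ξ'))) • p.2.2) : E × E)
      = (2 : ℝ) • (a, κ p • b + γ • p.2.2)
        - (fderiv ℝ A p.1 (0, ξ), (κ p * κ p) • fderiv ℝ A p.2 (0, ξ')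
            + (2 * κ p * β) • A p.2
            + gk A κ p • ξ' + fderiv ℝ (gk A κ) p ((0, ξ), (0, ξ')) • p.2.2) := by
    rw [Prod.smul_mk, Prod.mk_sub_mk]
    congr 1
    module
  rw [h3, map_sub, map_smul]
  have h4 := congrArg (fun z : W => (2 : ℝ) • z) h1
  simp only [smul_add, smul_zero] at h4
  have h5 := sub_eq_zero.2 (h4.trans h2.symm)
  rw [← h5]
  abel

end

end Pool.Agent.H52.S3
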